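import Pool.Agent.T2h14.CF.Bridge

/-!
# MP_bd1395_ag: cohomological field theories do not determine the homology of the moduli spaces
-/

set_option autoImplicit false

namespace Pool.Agent.Results.MP_bd1395_ag.NotDetermined

open Pool.Agent.T2h14.CF

universe u v w

/-- **Intersection numbers with cohomological field theories do not determine the homology classes
of the moduli spaces of stable curves.** Let `T` be the rational cohomology, a functor to graded
commutative algebras with the Künneth formula, and let `M` be given by the moduli spaces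
`Mbar g n` of stable curves of genus `g` with `n` markings, with the forgetful and the gluing maps and
the classes `ψ`.

(1) Let `n₁, n₂ ≥ 1`, `2 g₁ - 2 + n₁ > 0`, `2 g₂ - 2 + n₂ > 0`, and suppose that the moduli spaces for
`(g₁, n₁)` and `(g₂, n₂)` have non-zero cohomology of odd degree. Then there are two different
classes `A`, `B` in `H_*(Mbar (g₁ + g₂) (n₁ + n₂); ℚ)` whose intersection numbers with every
cohomological field theory agree.

(2) This is so for `g = 2`, `n = 22`, and for all `g ≥ 2` and `n ≥ 23`.

Proof. Let `ξ` be the gluing map, from `Mbar g₁ (n₁ + 1) × Mbar g₂ (n₂ + 1)`. The gluing axiom can be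
applied in the two orders of the factors. As `V` is even, the pull-back `ξ^* Ω` is
`∑ Ω(v, e_i) ⊠ Ω(w, e^i)` and also the same sum with the factors of the cup product exchanged. So the
components (odd, odd) of `ξ^* Ω` are zero for every cohomological field theory, and
`A = ξ_* (a × b)` is orthogonal to all of them if `a` and `b` have odd degree. It is not zero for
suitable `a` and `b`: let `x₁`, `x₂` be non-zero odd classes of `Mbar g₁ n₁` and `Mbar g₂ n₂`. Then
`ξ^* ξ_* (π^* x₁ ⊠ π^* x₂) = - (ψ π^* x₁ ⊠ π^* x₂ + π^* x₁ ⊠ ψ π^* x₂)` is not zero: its image under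
`π_* × 1` is `- (2 g₁ - 2 + n₁) x₁ ⊠ π^* x₂`. For (2) one uses that `H^11` of the moduli space for
`(1, 11)` is not zero, and the same argument for `ξ_* (π^* x₁ ⊠ 1)`. -/
theorem result {T : Cohomology.{u, v, w}} (hT : T.IsCohomology) {M : Moduli T}
    (hM : M.IsStableCurves) :
    (∀ g₁ n₁ g₂ n₂ : ℕ, 1 ≤ n₁ → 1 ≤ n₂ → Stable g₁ n₁ → Stable g₂ n₂ →
      M.OddCohomology g₁ n₁ → M.OddCohomology g₂ n₂ → ¬ M.Determined (g₁ + g₂) (n₁ + n₂)) ∧
    ¬ M.Determined 2 22 ∧ ∀ g n : ℕ, 2 ≤ g → 23 ≤ n → ¬ M.Determined g n := by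
  refine ⟨fun g₁ n₁ g₂ n₂ h₁ h₂ s₁ s₂ o₁ o₂ h => ?_, fun h => ?_, fun g n hg hn h => ?_⟩
  · exact Old.not_determined (M := oldCurves hT hM) h₁ h₂ s₁ s₂ o₁ o₂ (determined_old hT hM h)
  · exact Old.not_determined_two (oldCurves hT hM) (determined_old hT hM h)
  · exact Old.not_determined_all (oldCurves hT hM) hg hn (determined_old hT hM h)

end Pool.Agent.Results.MP_bd1395_ag.NotDetermined
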